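import Mathlib
import Pool.Agent.R904.RW.Lin

/-!
# Regulators of arithmetic schemes, vertical fibres and zero-cycles: definitions

The regulators of a regular connected scheme `X` of Krull dimension `d`, proper over `ℤ`, are numbered
as follows: `reg X j i` is the regulator `H^{2q-1-i}(X, ℚ(q)) → H_D^{2q-1-i}(X_{ℚ/ℝ}, ℝ(q))` in the
weight `q = d + j`. So `j = 0` is the weight of the problem, and `j ≥ 1` are the higher weights. `X` may
be flat over `ℤ`, or vertical: a variety over a finite field (then the Deligne cohomology is zero).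
-/

set_option autoImplicit false

open CategoryTheory CategoryTheory.Limits AlgebraicGeometry
open Pool.Agent.R904.RW (ext Iso ExactSeq IsSum)

namespace Pool.Agent.R387.AZ

/-! ### Arithmetic schemes and cycles -/

/-- A regular connected (or, what is the same, regular irreducible) scheme of Krull dimension `dim`,
proper over `Spec ℤ`. It need not be flat over `ℤ`. -/
structure Var where
  /-- the underlying scheme -/
  X : Scheme.{0}
  /-- the structure morphism -/
  str : X ⟶ Spec (.of ℤ)
  /-- the Krull dimension -/
  dim : ℕ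
  krull : topologicalKrullDim X = dim
  regular : ∀ x : X, IsRegularLocalRing (X.presheaf.stalk x)
  proper : IsProper str
  irred : IrreducibleSpace X

attribute [instance] Var.irred

/-- The generic fibre `X_ℚ`. -/
noncomputable def Var.generic (X : Var) : Scheme.{0} :=
  pullback X.str (Spec.map (CommRingCat.ofHom (algebraMap ℤ ℚ)))

/-- The generic fibres of `X` and `Y` are isomorphic (over `ℚ`). -/
def SameGeneric (X Y : Var) : Prop := Nonempty (X.generic ≅ Y.generic)

/-- Cycles with rational coefficients on `X ×_ℤ Y`: finite formal combinations of points of the scheme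
`X × Y`, a point standing for its closure. -/
def Cyc (X Y : Var) : Type := ↥(pullback X.str Y.str) →₀ ℚ

noncomputable instance (X Y : Var) : AddCommGroup (Cyc X Y) :=
  Finsupp.instAddCommGroup

/-- The set of the points of `X × Y` at which the coefficient of the cycle `z` is not zero. -/
def Cyc.points {X Y : Var} (z : Cyc X Y) : Set ↥(pullback X.str Y.str) :=
  {x | (show ↥(pullback X.str Y.str) →₀ ℚ from z) x ≠ 0}

/-- The diagonal of `X × X`. -/
noncomputable def diagonal (X : Var) : Cyc X X :=
  Finsupp.single ((pullback.diagonal X.str) (genericPoint X.X)) 1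

/-- The cycle `z` on `X × Y` lies over a closed subset `A ≠ X` of `X`. -/
def OverProper {X Y : Var} (z : Cyc X Y) : Prop :=
  ∃ A : Set X.X, IsClosed A ∧ A ≠ Set.univ ∧ ∀ x ∈ z.points, (pullback.fst X.str Y.str) x ∈ A

/-- The cycle `z` on `X × Y` is vertical: it lies over finitely many prime numbers (no component
of `z` meets the generic fibre). -/
def VerticalCycle {X Y : Var} (z : Cyc X Y) : Prop :=
  ∀ x ∈ z.points, X.str ((pullback.fst X.str Y.str) x) ≠ genericPoint ↥(Spec (.of ℤ))

/-- A class of arithmetic schemes, for example the class of all regular connected schemes projective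
over `ℤ`. -/
structure VarClass where
  mem : Var → Prop

/-- The schemes in the class `S`. -/
structure VarClass.Obj (S : VarClass) where
  V : Var
  mem : S.mem V

/-- the Krull dimension -/
def VarClass.Obj.dim {S : VarClass} (X : S.Obj) : ℕ := X.V.dim

/-- `X` is flat over `ℤ`. -/
def VarClass.Obj.IsFlat {S : VarClass} (X : S.Obj) : Prop := Flat X.V.str

/-- `X` is vertical: it is not flat over `ℤ`, so it is a smooth proper variety over a finite field. -/
def VarClass.Obj.IsVertical {S : VarClass} (X : S.Obj) : Prop := ¬ X.IsFlat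

/-- Rational equivalence of cycles, and the composition of correspondences of degree `0` (a choice of
cycles which represent it). `S` is the class of schemes considered. The correspondence of degree
`0` from `X` to `Y` given by a cycle on `X ×_ℤ Y` is its component of dimension `dim X`. -/
structure CycleData (S : VarClass) where
  /-- the cycles on `X × Y` which are rationally equivalent to zero -/
  rat : ∀ X Y : S.Obj, AddSubgroup (Cyc X.V Y.V)
  /-- the composition of the components of dimension `dim X` of `z` and of dimension `dim Y` of `w`: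
  first `z` from `X` to `Y`, then `w` from `Y` to `Z` -/
  comp : ∀ {X Y Z : S.Obj}, Cyc X.V Y.V → Cyc Y.V Z.V → Cyc X.V Z.V

variable {S : VarClass}

/-- A condition on cycles. -/
structure Small where
  P : ∀ {X Y : Var}, Cyc X Y → Prop

/-- the cycles over closed subsets `A ≠ X` of the first factor -/
def proper : Small := ⟨OverProper⟩

/-- the vertical cycles -/
def vertical : Small := ⟨VerticalCycle⟩

/-- There are correspondences `a t` from `X` to `Y t` and `b t` from `Y t` to `X`, of degree `0`, such
that the diagonal of `X` is rationally equivalent to `∑ b t ∘ a t` plus a cycle with the property `P`. -/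
def FromUpTo (C : CycleData S) (P : Small) (X : S.Obj) {ι : Type} [Fintype ι] (Y : ι → S.Obj) :
    Prop :=
  ∃ (a : ∀ t, Cyc X.V (Y t).V) (b : ∀ t, Cyc (Y t).V X.V) (z : Cyc X.V X.V), P.P z ∧
    diagonal X.V - ∑ t, C.comp (a t) (b t) - z ∈ C.rat X X

/-- The zero-cycles of `X` come from the `Y t`: the condition `FromUpTo` for the cycles over closed
subsets `A ≠ X`. For flat `X` this is a condition on the generic fibre `X_ℚ` and the flat ones of the
`Y t`. (By Bloch and Srinivas it holds if and only if over a universal domain the zero-cycles of `X_ℚ`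
with rational coefficients are sums of images of zero-cycles of the `(Y t)_ℚ` under correspondences.) -/
def ZeroCyclesFrom (C : CycleData S) (X : S.Obj) {ι : Type} [Fintype ι] (Y : ι → S.Obj) : Prop :=
  FromUpTo C proper X Y

/-- The generic fibre of `X` is a direct summand of the generic fibres of the `Y t` (as a Chow motive
with rational coefficients): the condition `FromUpTo` for vertical cycles. For example this holds for one
scheme `Y`, if there is a surjective morphism from `Y_ℚ` to `X_ℚ`. -/
def GenericSummand (C : CycleData S) (X : S.Obj) {ι : Type} [Fintype ι] (Y : ι → S.Obj) : Prop :=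
  FromUpTo C vertical X Y

/-- The zero-cycles of `X` come from members of the class `G`. -/
def ZeroCyclesFromClass (C : CycleData S) (G : S.Obj → Prop) (X : S.Obj) : Prop :=
  ∃ (n : ℕ) (Y : Fin n → S.Obj), (∀ t, G (Y t)) ∧ ZeroCyclesFrom C X Y

/-- The zero-cycles of (the generic fibre of) `X` are supported in dimension `≤ r`: they come from flat
schemes with generic fibre of dimension `≤ r`. -/
def ZeroCyclesIn (C : CycleData S) (r : ℕ) (X : S.Obj) : Prop :=
  ZeroCyclesFromClass C (fun Y => Y.IsFlat ∧ Y.dim ≤ r + 1) X

/-! ### Regulators -/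

/-- A regulator: a homomorphism `r` from a rational vector space to a real vector space. -/
structure Reg where
  M : Type
  D : Type
  [gM : AddCommGroup M]
  [mM : Module ℚ M]
  [gD : AddCommGroup D]
  [mD : Module ℝ D]
  r : M →+ D

attribute [instance] Reg.gM Reg.mM Reg.gD Reg.mD

/-- The maps of regulators: the pairs of linear maps which commute with the regulators. -/
structure RMap (P Q : Reg) where
  m : P.M →ₗ[ℚ] Q.M
  d : P.D →ₗ[ℝ] Q.D
  comm : ∀ x, Q.r (m x) = d (P.r x)

variable {P Q T : Reg}

/-- `f` is the zero map -/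
def RMap.IsZero (f : RMap P Q) : Prop := (∀ x, f.m x = 0) ∧ ∀ x, f.d x = 0

/-- `f` is the identity -/
def RMap.IsId (f : RMap P P) : Prop := (∀ x, f.m x = x) ∧ ∀ x, f.d x = x

/-- `f = g + h` -/
def RMap.IsAdd (f g h : RMap P Q) : Prop :=
  (∀ x, f.m x = g.m x + h.m x) ∧ ∀ x, f.d x = g.d x + h.d x

/-- `f = g ∘ h` -/
def RMap.IsComp (f : RMap P T) (g : RMap Q T) (h : RMap P Q) : Prop :=
  (∀ x, f.m x = g.m (h.m x)) ∧ ∀ x, f.d x = g.d (h.d x)

/-- `f = ∑ t, b t ∘ a t` -/
def RMap.IsSumComp (f : RMap P Q) {τ : Type} [Fintype τ] {P' : τ → Reg}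
    (b : ∀ t, RMap (P' t) Q) (a : ∀ t, RMap P (P' t)) : Prop :=
  (∀ x, f.m x = ∑ t, (b t).m ((a t).m x)) ∧ ∀ x, f.d x = ∑ t, (b t).d ((a t).d x)

/-- The regulator extends to an isomorphism `ℝ ⊗ M → D`. -/
def Reg.IsIso (P : Reg) : Prop := Iso P.r

/-- There is an exact sequence `0 → ℝ ⊗ M → D → ℝ → 0` whose first map extends the regulator. -/
def Reg.IsExact (P : Reg) : Prop := ExactSeq P.r

/-- The regulator `P` is the direct sum of `P₁` and the `P' a`. -/
def Reg.SumOf (P P₁ : Reg) {ι : Type} (P' : ι → Reg) : Prop := IsSum P.r P₁.r fun a => (P' a).r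

/-- Motivic cohomology, real Deligne cohomology of the generic fibre and regulators, with the action
of correspondences and the trace. -/
structure RegData (S : VarClass) where
  /-- `reg X j i` is the regulator `H^{2q-1-i}(X, ℚ(q)) → H_D^{2q-1-i}(X_{ℚ/ℝ}, ℝ(q))`, restriction to
  the generic fibre followed by Beilinson's regulator, for `q = dim X + j` -/
  reg : S.Obj → ℕ → ℕ → Reg
  /-- A cycle on `X ×_ℤ Y` acts through its component of dimension `dim X`; this action preserves the
  numbers `j`, `i` (it is `a ↦ pr₂_* (pr₁^* a · z)`). -/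
  act : ∀ {X Y : S.Obj} (j i : ℕ), Cyc X.V Y.V → RMap (reg X j i) (reg Y j i)
  /-- the trace `H_D^{2d-1}(X_{ℚ/ℝ}, ℝ(d)) → H_D^1(ℝ(1)) = ℝ`, `d = dim X`, for flat `X` (the push-forward;
  zero for vertical `X`) -/
  tr : ∀ X : S.Obj, (reg X 0 0).D →ₗ[ℝ] ℝ

/-- The map `f` is a sum of composites `X → W t → Y` of maps of regulators, where the `W t` have the
property `V`, `dim W t = dim X - e t`, `e t ≥ 1`, and the weight is not changed by `X → W t` (pull-back to
a regular alteration `W t` of a closed subset of `X`), so that the number `j` becomes `j + e t`. -/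
def Factors (R : RegData S) (V : S.Obj → Prop) {X Y : S.Obj} {j i : ℕ}
    (f : RMap (R.reg X j i) (R.reg Y j i)) : Prop :=
  ∃ (n : ℕ) (W : Fin n → S.Obj) (e : Fin n → ℕ),
    (∀ t, V (W t) ∧ 1 ≤ e t ∧ (W t).dim + e t = X.dim) ∧
    ∃ (a : ∀ t, RMap (R.reg X j i) (R.reg (W t) (j + e t) i))
      (b : ∀ t, RMap (R.reg (W t) (j + e t) i) (R.reg Y j i)), f.IsSumComp b a

/-- The cycles with the property `P` act through schemes with the property `V`, if `X` has the
property `F`. -/
def SmallAct (R : RegData S) (P : Small) (F V : S.Obj → Prop) : Prop :=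
  ∀ {X Y : S.Obj} (z : Cyc X.V Y.V), F X → P.P z → ∀ j i, Factors R V (R.act j i z)

/-- The action of correspondences is additive and functorial, and cycles rationally equivalent to
zero act as zero. -/
structure IsAction (C : CycleData S) (R : RegData S) : Prop where
  add : ∀ {X Y : S.Obj} (j i : ℕ) (z w : Cyc X.V Y.V),
    (R.act j i (z + w)).IsAdd (R.act j i z) (R.act j i w)
  diag : ∀ (X : S.Obj) (j i : ℕ), (R.act j i (diagonal X.V)).IsId
  comp : ∀ {X Y Z : S.Obj} (j i : ℕ) (z : Cyc X.V Y.V) (w : Cyc Y.V Z.V),
    (R.act j i (C.comp z w)).IsComp (R.act j i w) (R.act j i z)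
  rat : ∀ {X Y : S.Obj} (j i : ℕ), ∀ z ∈ C.rat X Y, (R.act j i z).IsZero

/-- The trace of the regulator of every element is zero (it is the regulator of an element of
`H^1(ℤ, ℚ(1)) = ℤ^* ⊗ ℚ = 0`). -/
def TraceOfRegulators (R : RegData S) : Prop :=
  ∀ (X : S.Obj) (x : (R.reg X 0 0).M), R.tr X ((R.reg X 0 0).r x) = 0

/-- A correspondence between flat schemes multiplies the trace by a number, its degree over `X`. -/
def TraceOfCorrespondences (R : RegData S) : Prop :=
  ∀ {X Y : S.Obj} (z : Cyc X.V Y.V), X.IsFlat → Y.IsFlat →
    ∃ δ : ℝ, ∀ x, R.tr Y ((R.act 0 0 z).d x) = δ * R.tr X x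

/-- The formal properties of the trace. -/
structure IsTrace (R : RegData S) : Prop where
  surjective : ∀ X : S.Obj, X.IsFlat → Function.Surjective (R.tr X)
  reg : TraceOfRegulators R
  act : TraceOfCorrespondences R

/-- The Deligne cohomology vanishes for vertical schemes, and for flat schemes with generic fibre of
dimension `d - 1` it vanishes in degrees `> 2 d - 1`. -/
structure Vanishing (R : RegData S) : Prop where
  top : ∀ (X : S.Obj) (j : ℕ), 1 ≤ j → Subsingleton (R.reg X j 0).D
  vertical : ∀ (X : S.Obj) (j i : ℕ), X.IsVertical → Subsingleton (R.reg X j i).D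

/-- The formal properties of cycles, motivic cohomology, Deligne cohomology and regulators. -/
structure IsRegTheory (C : CycleData S) (R : RegData S) : Prop where
  /-- the diagonal is the identity for the composition -/
  comp_diag : ∀ X : S.Obj, C.comp (diagonal X.V) (diagonal X.V) - diagonal X.V ∈ C.rat X X
  action : IsAction C R
  /-- a cycle over a closed subset `A ≠ X` of `X` acts through regular alterations of the components
  of `A` -/
  proper : SmallAct R proper (fun _ => True) fun _ => True
  /-- for flat `X`, a vertical cycle acts through vertical schemes -/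
  vertical : SmallAct R vertical (fun X => X.IsFlat) fun W => W.IsVertical
  /-- if the generic fibres of the flat schemes `X`, `Y` are isomorphic, then the closures of the graph
  of the isomorphism and of its inverse compose to the diagonal of `X` up to a vertical cycle -/
  generic : ∀ X Y : S.Obj, X.IsFlat → Y.IsFlat → SameGeneric X.V Y.V →
    GenericSummand C X fun _ : Fin 1 => Y
  vanishing : Vanishing R
  trace : IsTrace R

/-- Q1 for `X`: with `d = dim X`, the regulator in weight `d` and degree `2 d - 1 - i` extends to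
an isomorphism `ℝ ⊗ M → D` for `i ≥ 1`, and for flat `X` and `i = 0` there is an exact sequence
`0 → ℝ ⊗ M → D → ℝ → 0` (`X` is connected, `CH^0(X_ℚ)^*_ℝ = ℝ`). For vertical `X` we define Q1 in the same
way: `ℝ ⊗ M → D = 0` is an isomorphism for all `i ≥ 0` (here `CH^0(X_ℚ) = 0`). -/
def Q1 (R : RegData S) (X : S.Obj) : Prop :=
  (∀ i : ℕ, 1 ≤ i → (R.reg X 0 i).IsIso) ∧ (X.IsFlat → (R.reg X 0 0).IsExact) ∧
    (X.IsVertical → (R.reg X 0 0).IsIso)

/-- The regulators of `X` in all weights `q > dim X` extend to isomorphisms in all degrees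
`p < 2 q`. For vertical `X` this says that `H^p(X, ℚ(q)) = 0` for `q > dim X`, `p < 2 q` (a part of
Parshin's conjecture). -/
def HighWeights (R : RegData S) (X : S.Obj) : Prop := ∀ j : ℕ, 1 ≤ j → ∀ i : ℕ, (R.reg X j i).IsIso

/-- `H^p(Z, ℚ(q)) = 0` for all vertical `Z` of dimension `< m`, `q > dim Z`, `p < 2 q`. -/
def VerticalVanishing (R : RegData S) (m : ℕ) : Prop :=
  ∀ Z : S.Obj, Z.IsVertical → Z.dim < m → ∀ j : ℕ, 1 ≤ j → ∀ i : ℕ, Subsingleton (R.reg Z j i).M

/-- `T` is a class of flat schemes with rational generic fibres: their zero-cycles are supported in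
dimension `0`, and for every `X` (flat or vertical) it contains blow-ups `B` along `X` of projective
spaces `P` over `ℤ` in which `X` has arbitrarily large codimension `c + 1`:
`H^p(B, q) = H^p(P, q) ⊕ ⨁ H^{p-2a}(X, q-a)`, `0 < a ≤ c`. -/
structure IsRationalClass (C : CycleData S) (R : RegData S) (T : S.Obj → Prop) : Prop where
  flat : ∀ B, T B → B.IsFlat
  zero : ∀ B, T B → ZeroCyclesIn C 0 B
  blowUp : ∀ (X : S.Obj) (m : ℕ), ∃ (B P : S.Obj) (c : ℕ), T B ∧ m ≤ c ∧
    ∀ i, (R.reg B 0 i).SumOf (R.reg P 0 i) fun a : Fin c => R.reg X (a + 1) i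

/-! ### The statements -/

/-- Q1 and the generic fibre: suppose that the generic fibre of the flat scheme `X` is a direct summand
of those of the flat schemes `Y t`, and that `H^p(Z, ℚ(q)) = 0` for vertical `Z` of dimension `< dim X`,
`q > dim Z`, `p < 2 q`. Then Q1 for the `Y t` implies Q1 for `X`, and if the `Y t` have the property
`HighWeights`, so has `X`. -/
def GovernedByGeneric (C : CycleData S) (R : RegData S) : Prop :=
  ∀ (X : S.Obj) (ι : Type) [Fintype ι] (Y : ι → S.Obj), X.IsFlat → (∀ t, (Y t).IsFlat) →
    GenericSummand C X Y → VerticalVanishing R X.dim →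
    ((∀ t, Q1 R (Y t)) → Q1 R X) ∧ ((∀ t, HighWeights R (Y t)) → HighWeights R X)

/-- Q1 and the choice of the model: for flat schemes `X`, `Y` of dimension `d` with isomorphic generic
fibres, Q1 for `X` is equivalent to Q1 for `Y`, if `H^p(Z, ℚ(q)) = 0` for vertical `Z` of dimension
`< d`, `q > dim Z`, `p < 2 q`. -/
def Models (R : RegData S) : Prop :=
  ∀ X Y : S.Obj, X.IsFlat → Y.IsFlat → X.dim = Y.dim → SameGeneric X.V Y.V →
    VerticalVanishing R X.dim → (Q1 R X ↔ Q1 R Y)

/-- Q1 and zero-cycles: if the zero-cycles of `X` come from the `Y t` (of any dimensions), and if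
all schemes of dimension `< dim X` have the property `HighWeights`, then Q1 for the `Y t` implies Q1
for `X`, and the property `HighWeights` for the `Y t` implies it for `X`. -/
def GovernedByZeroCycles (C : CycleData S) (R : RegData S) : Prop :=
  ∀ (X : S.Obj) (ι : Type) [Fintype ι] (Y : ι → S.Obj), ZeroCyclesFrom C X Y →
    (∀ W : S.Obj, W.dim < X.dim → HighWeights R W) →
    ((∀ t, Q1 R (Y t)) → Q1 R X) ∧ ((∀ t, HighWeights R (Y t)) → HighWeights R X)

/-- Q1 holds for all flat `X` such that the zero-cycles of `X_ℚ` are supported in dimension `≤ r` if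
and only if it holds for the members of `T` (with rational generic fibre) and for the flat schemes with
generic fibre of dimension `≤ r`. -/
def ForSupport (C : CycleData S) (R : RegData S) (T : S.Obj → Prop) (r : ℕ) : Prop :=
  (∀ X : S.Obj, X.IsFlat → ZeroCyclesIn C r X → Q1 R X) ↔
    (∀ B, T B → Q1 R B) ∧ ∀ Y : S.Obj, Y.IsFlat → Y.dim ≤ r + 1 → Q1 R Y

/-- Q1 holds for the members of `T` and for all flat `X` whose zero-cycles come from members of `G` if
and only if it holds for the members of `T` and for the members of `G` (a class of flat schemes). -/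
def ForClass (C : CycleData S) (R : RegData S) (T G : S.Obj → Prop) : Prop :=
  (∀ X : S.Obj, X.IsFlat → (T X ∨ ZeroCyclesFromClass C G X) → Q1 R X) ↔
    (∀ B, T B → Q1 R B) ∧ ∀ Y, G Y → Q1 R Y

/-- Q1 holds for the members of `T` if and only if all schemes, flat or vertical, have the property
`HighWeights`. -/
def RationalIffHigh (R : RegData S) (T : S.Obj → Prop) : Prop :=
  (∀ B, T B → Q1 R B) ↔ ∀ X, HighWeights R X

end Pool.Agent.R387.AZ
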