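import Mathlib
import Pool.Agent.R387.AZ.Defs

/-!
# Regulators of arithmetic schemes, vertical fibres and zero-cycles: proofs
-/

set_option autoImplicit false

open Pool.Agent.R904.RW (ext ext_tmul Iso ExactSeq IsSum)
open scoped TensorProduct

namespace Pool.Agent.R387.AZ

/-! ### Linear algebra -/

section Abs

variable {A D : Type*} [AddCommGroup A] [Module ℝ A] [AddCommGroup D] [Module ℝ D]
  {τ : Type} [Fintype τ] {A' D' : τ → Type*} [∀ t, AddCommGroup (A' t)] [∀ t, Module ℝ (A' t)]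
  [∀ t, AddCommGroup (D' t)] [∀ t, Module ℝ (D' t)] (T : A →ₗ[ℝ] D) (T' : ∀ t, A' t →ₗ[ℝ] D' t)
  (a : ∀ t, A →ₗ[ℝ] A' t) (a' : ∀ t, D →ₗ[ℝ] D' t) (b : ∀ t, A' t →ₗ[ℝ] A)
  (b' : ∀ t, D' t →ₗ[ℝ] D)

theorem retract_inj (h1 : ∀ t x, T' t (a t x) = a' t (T x)) (h3 : ∀ x, ∑ t, b t (a t x) = x)
    (hT : ∀ t, Function.Injective (T' t)) : Function.Injective T := by
  rw [← LinearMap.ker_eq_bot, LinearMap.ker_eq_bot']
  intro x hx
  rw [← h3 x]
  refine Finset.sum_eq_zero fun t _ => ?_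
  have h4 : a t x = 0 := hT t (by rw [h1, hx, map_zero, map_zero])
  rw [h4, map_zero]

theorem retract_range (h2 : ∀ t y, T (b t y) = b' t (T' t y)) (h3 : ∀ x, ∑ t, b' t (a' t x) = x)
    {x : D} (hx : ∀ t, a' t x ∈ LinearMap.range (T' t)) : x ∈ LinearMap.range T := by
  rw [← h3 x]
  refine Submodule.sum_mem _ fun t _ => ?_
  obtain ⟨y, hy⟩ := hx t
  exact ⟨b t y, by rw [h2, hy]⟩

theorem ker_eq_ker (φ ψ : D →ₗ[ℝ] ℝ) (hφ : Function.Surjective φ) (hψ : Function.Surjective ψ)
    (h : ∀ x, φ x = 0 → ψ x = 0) (x : D) : ψ x = 0 ↔ φ x = 0 := by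
  obtain ⟨u, hu⟩ := hφ 1
  have h1 : ∀ y, ψ y = φ y * ψ u := by
    intro y
    have h2 : φ (y - φ y • u) = 0 := by
      rw [map_sub, map_smul, hu, smul_eq_mul, mul_one, sub_self]
    have h3 := h _ h2
    rw [map_sub, map_smul, smul_eq_mul, sub_eq_zero] at h3
    exact h3
  have h4 : ψ u ≠ 0 := by
    intro h0
    obtain ⟨v, hv⟩ := hψ 1
    rw [h1, h0, mul_zero] at hv
    exact zero_ne_one hv
  rw [h1 x, mul_eq_zero]
  exact ⟨fun h5 => h5.resolve_right h4, fun h5 => Or.inl h5⟩

end Abs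

section Ext

variable {M D M' D' : Type} [AddCommGroup M] [Module ℚ M] [AddCommGroup D] [Module ℝ D]
  [AddCommGroup M'] [Module ℚ M'] [AddCommGroup D'] [Module ℝ D']

theorem ext_baseChange (r : M →+ D) (r' : M' →+ D') (a : M →ₗ[ℚ] M') (a' : D →ₗ[ℝ] D')
    (h : ∀ x, r' (a x) = a' (r x)) (z : ℝ ⊗[ℚ] M) :
    ext r' (a.baseChange ℝ z) = a' (ext r z) := by
  induction z using TensorProduct.induction_on with
  | zero => simp only [map_zero]
  | add x y hx hy => simp only [map_add, hx, hy]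
  | tmul c m =>
    rw [LinearMap.baseChange_tmul, ext_tmul, ext_tmul, h, map_smul]

theorem sum_baseChange {τ : Type} [Fintype τ] {N : τ → Type} [∀ t, AddCommGroup (N t)]
    [∀ t, Module ℚ (N t)] (a : ∀ t, M →ₗ[ℚ] N t) (b : ∀ t, N t →ₗ[ℚ] M)
    (h : ∀ x, ∑ t, b t (a t x) = x) (z : ℝ ⊗[ℚ] M) :
    ∑ t, (b t).baseChange ℝ ((a t).baseChange ℝ z) = z := by
  induction z using TensorProduct.induction_on with
  | zero => simp only [map_zero, Finset.sum_const_zero]
  | add x y hx hy =>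
    simp only [map_add, Finset.sum_add_distrib, hx, hy]
  | tmul c m =>
    simp only [LinearMap.baseChange_tmul]
    rw [← TensorProduct.tmul_sum, h]

/-- a regulator with values in the zero space is an isomorphism if and only if `M = 0` -/
theorem iso_iff_subsingleton (r : M →+ D) (hD : Subsingleton D) : Iso r ↔ Subsingleton M := by
  constructor
  · intro h
    refine ⟨fun x y => ?_⟩
    have h1 : ((1 : ℝ) ⊗ₜ[ℚ] x : ℝ ⊗[ℚ] M) = 1 ⊗ₜ y := h.1 (Subsingleton.elim _ _)
    exact Module.FaithfullyFlat.tensorProduct_mk_injective (A := ℚ) (B := ℝ) M h1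
  · intro h
    have h1 : Subsingleton (ℝ ⊗[ℚ] M) := by
      refine subsingleton_of_forall_eq 0 fun z => ?_
      induction z using TensorProduct.induction_on with
      | zero => rfl
      | add x y hx hy => rw [hx, hy, add_zero]
      | tmul c m => rw [Subsingleton.elim m 0, TensorProduct.tmul_zero]
    exact ⟨fun x y _ => Subsingleton.elim _ _, fun y => ⟨0, Subsingleton.elim _ _⟩⟩

end Ext

/-- The identity of `P` is a sum of composites through the `P' t`. -/
structure Retract (P : Reg) {τ : Type} [Fintype τ] (P' : τ → Reg) where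
  a : ∀ t, RMap P (P' t)
  b : ∀ t, RMap (P' t) P
  hM : ∀ x, ∑ t, (b t).m ((a t).m x) = x
  hD : ∀ x, ∑ t, (b t).d ((a t).d x) = x

theorem Retract.injective {P : Reg} {τ : Type} [Fintype τ] {P' : τ → Reg} (r : Retract P P')
    (h : ∀ t, Function.Injective (ext (P' t).r)) : Function.Injective (ext P.r) :=
  retract_inj _ (fun t => ext (P' t).r) (fun t => (r.a t).m.baseChange ℝ) (fun t => (r.a t).d)
    (fun t => (r.b t).m.baseChange ℝ) (fun t x => ext_baseChange _ _ _ _ (r.a t).comm x)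
    (sum_baseChange _ _ r.hM) h

theorem Retract.range {P : Reg} {τ : Type} [Fintype τ] {P' : τ → Reg} (r : Retract P P')
    {x : P.D} (h : ∀ t, (r.a t).d x ∈ LinearMap.range (ext (P' t).r)) :
    x ∈ LinearMap.range (ext P.r) :=
  retract_range _ (fun t => ext (P' t).r) (fun t => (r.a t).d)
    (fun t => (r.b t).m.baseChange ℝ) (fun t => (r.b t).d)
    (fun t x => ext_baseChange _ _ _ _ (r.b t).comm x) r.hD h

theorem Retract.iso {P : Reg} {τ : Type} [Fintype τ] {P' : τ → Reg} (r : Retract P P')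
    (h : ∀ t, (P' t).IsIso) : P.IsIso := by
  refine ⟨r.injective fun t => (h t).1, fun x => ?_⟩
  exact r.range fun t => (h t).2 _

variable {S : VarClass} {C : CycleData S} {R : RegData S}

theorem vertical_iso_iff (h : IsRegTheory C R) {Z : S.Obj} (hZ : Z.IsVertical) (j i : ℕ) :
    (R.reg Z j i).IsIso ↔ Subsingleton (R.reg Z j i).M :=
  iso_iff_subsingleton _ (h.vanishing.vertical Z j i hZ)

/-- the regulators through which the identity factors -/
def through (R : RegData S) (j i : ℕ) {ι : Type} (Y : ι → S.Obj) {n : ℕ} (W : Fin n → S.Obj)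
    (e : Fin n → ℕ) : ι ⊕ Fin n → Reg :=
  Sum.elim (fun t => R.reg (Y t) j i) fun t => R.reg (W t) (j + e t) i

/-- the action on an element of the motivic cohomology, as a homomorphism -/
noncomputable def evM (h : IsAction C R) {X Y : S.Obj} (j i : ℕ) (x : (R.reg X j i).M) :
    Cyc X.V Y.V →+ (R.reg Y j i).M :=
  AddMonoidHom.mk' (fun z => (R.act j i z).m x) fun z w => (h.add j i z w).1 x

/-- the action on an element of the Deligne cohomology, as a homomorphism -/
noncomputable def evD (h : IsAction C R) {X Y : S.Obj} (j i : ℕ) (x : (R.reg X j i).D) :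
    Cyc X.V Y.V →+ (R.reg Y j i).D :=
  AddMonoidHom.mk' (fun z => (R.act j i z).d x) fun z w => (h.add j i z w).2 x

theorem retract_core (h : IsRegTheory C R) {X : S.Obj} {ι : Type} [Fintype ι] {Y : ι → S.Obj}
    (a : ∀ t, Cyc X.V (Y t).V) (b : ∀ t, Cyc (Y t).V X.V) (z : Cyc X.V X.V)
    (hr : diagonal X.V - ∑ t, C.comp (a t) (b t) - z ∈ C.rat X X) (j i : ℕ) {n : ℕ} (W : Fin n → S.Obj)
    (e : Fin n → ℕ) (c : ∀ t, RMap (R.reg X j i) (R.reg (W t) (j + e t) i))
    (d : ∀ t, RMap (R.reg (W t) (j + e t) i) (R.reg X j i))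
    (hz : (R.act j i z).IsSumComp d c) :
    ∃ r : Retract (R.reg X j i) (through R j i Y W e),
        ∀ t, ∃ z : Cyc X.V (Y t).V, r.a (Sum.inl t) = R.act j i z := by
  classical
  refine ⟨⟨Sum.rec (fun t => R.act j i (a t)) c, Sum.rec (fun t => R.act j i (b t)) d, ?_, ?_⟩,
    fun t => ⟨a t, rfl⟩⟩
  · intro x
    have h1 : evM h.action j i x _ = 0 := (h.action.rat j i _ hr).1 x
    rw [map_sub, map_sub, map_sum, sub_sub, sub_eq_zero] at h1
    rw [Fintype.sum_sum_type]
    refine Eq.trans ?_ (h1.symm.trans ((h.action.diag X j i).1 x))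
    refine congrArg₂ (· + ·) (Finset.sum_congr rfl fun t _ => ?_) (hz.1 x).symm
    exact ((h.action.comp j i (a t) (b t)).1 x).symm
  · intro x
    have h1 : evD h.action j i x _ = 0 := (h.action.rat j i _ hr).2 x
    rw [map_sub, map_sub, map_sum, sub_sub, sub_eq_zero] at h1
    rw [Fintype.sum_sum_type]
    refine Eq.trans ?_ (h1.symm.trans ((h.action.diag X j i).2 x))
    refine congrArg₂ (· + ·) (Finset.sum_congr rfl fun t _ => ?_) (hz.2 x).symm
    exact ((h.action.comp j i (a t) (b t)).2 x).symm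

/-- A decomposition of the diagonal gives retracts. -/
theorem exists_retract (h : IsRegTheory C R) {P : Small} {F V : S.Obj → Prop}
    (hP : SmallAct R P F V) {X : S.Obj} (hF : F X) {ι : Type} [Fintype ι] {Y : ι → S.Obj}
    (hX : FromUpTo C P X Y) (j i : ℕ) :
    ∃ (n : ℕ) (W : Fin n → S.Obj) (e : Fin n → ℕ),
      (∀ t, V (W t) ∧ 1 ≤ e t ∧ (W t).dim + e t = X.dim) ∧
      ∃ r : Retract (R.reg X j i) (through R j i Y W e),
        ∀ t, ∃ z : Cyc X.V (Y t).V, r.a (Sum.inl t) = R.act j i z := by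
  obtain ⟨a, b, z, hz, hr⟩ := hX
  obtain ⟨n, W, e, hW, c, d, hz'⟩ := hP z hF hz j i
  exact ⟨n, W, e, hW, retract_core h a b z hr j i W e c d hz'⟩

theorem tr_ext (h : IsRegTheory C R) (X : S.Obj) (z : ℝ ⊗[ℚ] (R.reg X 0 0).M) :
    R.tr X (ext (R.reg X 0 0).r z) = 0 := by
  induction z using TensorProduct.induction_on with
  | zero => rw [map_zero, map_zero]
  | add u v hu hv => rw [map_add, map_add, hu, hv, add_zero]
  | tmul c m => rw [ext_tmul, map_smul, h.trace.reg, smul_zero]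

theorem mem_range_iff_tr (h : IsRegTheory C R) {X : S.Obj} (hf : X.IsFlat)
    (hX : (R.reg X 0 0).IsExact) (x : (R.reg X 0 0).D) :
    R.tr X x = 0 ↔ x ∈ LinearMap.range (ext (R.reg X 0 0).r) := by
  obtain ⟨-, φ, hφ, hs⟩ := hX
  rw [ker_eq_ker φ (R.tr X) hs (h.trace.surjective X hf) ?_ x]
  · exact hφ x
  · intro y hy
    obtain ⟨z, rfl⟩ := (hφ y).1 hy
    exact tr_ext h X z

theorem iso_of_from (h : IsRegTheory C R) {P : Small} {F V : S.Obj → Prop}
    (hP : SmallAct R P F V) {X : S.Obj} (hF : F X) {ι : Type} [Fintype ι] {Y : ι → S.Obj}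
    (hX : FromUpTo C P X Y) (j i : ℕ)
    (hW : ∀ (W : S.Obj) (e : ℕ), V W → 1 ≤ e → W.dim + e = X.dim → (R.reg W (j + e) i).IsIso)
    (hY : ∀ t, (R.reg (Y t) j i).IsIso) : (R.reg X j i).IsIso := by
  obtain ⟨n, W, e, he, r, -⟩ := exists_retract h hP hF hX j i
  refine r.iso ?_
  rintro (t | t)
  · exact hY t
  · exact hW _ _ (he t).1 (he t).2.1 (he t).2.2

/-- `Q1` is governed by the diagonal -/
theorem q1_of_from (h : IsRegTheory C R) {P : Small} {F V : S.Obj → Prop}
    (hP : SmallAct R P F V) {X : S.Obj} (hF : F X) {ι : Type} [Fintype ι] {Y : ι → S.Obj}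
    (hX : FromUpTo C P X Y)
    (hW : ∀ (W : S.Obj) (e : ℕ), V W → 1 ≤ e → W.dim + e = X.dim → ∀ i, (R.reg W e i).IsIso)
    (hY : ∀ t, Q1 R (Y t)) : Q1 R X := by
  have hinj : Function.Injective (ext (R.reg X 0 0).r) := by
    obtain ⟨n, W, e, he, r, -⟩ := exists_retract h hP hF hX 0 0
    refine r.injective ?_
    rintro (t | t)
    · by_cases hf : (Y t).IsFlat
      · exact ((hY t).2.1 hf).1
      · exact ((hY t).2.2 hf).1
    · have := (hW (W t) (e t) (he t).1 (he t).2.1 (he t).2.2 0).1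
      rw [← zero_add (e t)] at this
      exact this
  refine ⟨fun i hi => iso_of_from h hP hF hX 0 i
    (fun W e h0 h1 h2 => by rw [zero_add]; exact hW W e h0 h1 h2 i) fun t => (hY t).1 i hi, ?_, ?_⟩
  · intro hXf
    obtain ⟨n, W, e, he, r, hr⟩ := exists_retract h hP hF hX 0 0
    refine ⟨hinj, R.tr X, ?_, h.trace.surjective X hXf⟩
    intro x
    constructor
    · intro hx
      refine r.range (x := x) ?_
      rintro (t | t)
      · by_cases hf : (Y t).IsFlat
        · obtain ⟨z, hz⟩ := hr t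
          rw [hz]
          refine (mem_range_iff_tr h hf ((hY t).2.1 hf) _).1 ?_
          obtain ⟨δ, hδ⟩ := h.trace.act z hXf hf
          exact (hδ x).trans (by rw [hx, mul_zero])
        · exact ((hY t).2.2 hf).2 _
      · have := (hW (W t) (e t) (he t).1 (he t).2.1 (he t).2.2 0).2
        rw [← zero_add (e t)] at this
        exact this _
    · rintro ⟨z, rfl⟩
      exact tr_ext h X z
  · intro hXv
    have := h.vanishing.vertical X 0 0 hXv
    exact ⟨hinj, fun y => ⟨0, Subsingleton.elim _ _⟩⟩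

theorem high_of_from (h : IsRegTheory C R) {P : Small} {F V : S.Obj → Prop}
    (hP : SmallAct R P F V) {X : S.Obj} (hF : F X) {ι : Type} [Fintype ι] {Y : ι → S.Obj}
    (hX : FromUpTo C P X Y) (hW : ∀ W : S.Obj, V W → W.dim < X.dim → HighWeights R W)
    (hY : ∀ t, HighWeights R (Y t)) : HighWeights R X :=
  fun j hj i => iso_of_from h hP hF hX j i
    (fun W e h0 h1 h2 => hW W h0 (by omega) (j + e) (by omega) i) fun t => hY t j hj i

/-! ### The generic fibre -/

theorem high_of_vanishing (h : IsRegTheory C R) {m : ℕ} (hv : VerticalVanishing R m) (W : S.Obj)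
    (h0 : W.IsVertical) (h1 : W.dim < m) : HighWeights R W :=
  fun j hj i => (vertical_iso_iff h h0 j i).2 (hv W h0 h1 j hj i)

theorem governedByGeneric (h : IsRegTheory C R) : GovernedByGeneric C R := by
  intro X ι _ Y hXf _ hX hv
  have hW := high_of_vanishing h hv
  exact ⟨fun hY => q1_of_from h h.vertical hXf hX
      (fun W e h0 h1 h2 i => hW W h0 (by omega) e h1 i) hY,
    fun hY => high_of_from h h.vertical hXf hX hW hY⟩

theorem models (h : IsRegTheory C R) : Models R := by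
  have key : ∀ X Y : S.Obj, X.IsFlat → Y.IsFlat → SameGeneric X.V Y.V →
      VerticalVanishing R X.dim → Q1 R Y → Q1 R X := by
    intro X Y hX hY hXY hv hq
    exact (governedByGeneric h X (Fin 1) (fun _ => Y) hX (fun _ => hY) (h.generic X Y hX hY hXY)
      hv).1 fun _ => hq
  intro X Y hX hY hd hXY hv
  refine ⟨key Y X hY hX ⟨hXY.some.symm⟩ (hd ▸ hv), key X Y hX hY hXY hv⟩

/-! ### Zero-cycles -/

theorem governedByZeroCycles (h : IsRegTheory C R) : GovernedByZeroCycles C R := by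
  intro X ι _ Y hX hW
  exact ⟨fun hY => q1_of_from h h.proper trivial hX
      (fun W e _ h1 h2 i => hW W (by omega) e h1 i) hY,
    fun hY => high_of_from h h.proper trivial hX (fun W _ h1 => hW W h1) hY⟩

theorem zeroCyclesFrom_self (h : IsRegTheory C R) (X : S.Obj) :
    ZeroCyclesFrom C X fun _ : Fin 1 => X := by
  refine ⟨fun _ => diagonal X.V, fun _ => diagonal X.V, 0, ⟨∅, isClosed_empty, ?_, ?_⟩, ?_⟩
  · intro h0
    have : genericPoint X.V.X ∈ (∅ : Set X.V.X) := by rw [h0]; trivial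
    exact this
  · intro x hx
    exact absurd rfl hx
  · have h1 := h.comp_diag X
    rw [Finset.univ_unique, Finset.sum_singleton, sub_zero]
    have h2 := (C.rat X X).neg_mem h1
    rwa [neg_sub] at h2

theorem mem_class (h : IsRegTheory C R) {G : S.Obj → Prop} {X : S.Obj} (hX : G X) :
    ZeroCyclesFromClass C G X := ⟨1, fun _ => X, fun _ => hX, zeroCyclesFrom_self h X⟩

theorem high_of_rational (h : IsRegTheory C R) {T : S.Obj → Prop} (hT : IsRationalClass C R T)
    (H : ∀ B, T B → Q1 R B) (X : S.Obj) : HighWeights R X := by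
  intro j hj i
  obtain ⟨B, P, c, hB, hc, hs⟩ := hT.blowUp X j
  have h1 := H B hB
  obtain ⟨a, ha⟩ : ∃ a : Fin c, (a : ℕ) + 1 = j := ⟨⟨j - 1, by omega⟩, by
    change j - 1 + 1 = j
    omega⟩
  subst ha
  rcases Nat.eq_zero_or_pos i with rfl | hi
  · have h2 := (IsSum.exact_iff (hs 0) fun a => h.vanishing.top X (a + 1) (by omega)).1
      (h1.2.1 (hT.flat B hB))
    exact h2.2 a
  · exact ((IsSum.iso_iff (hs i)).1 (h1.1 i hi)).2 a

theorem vertical_of_rational (h : IsRegTheory C R) {T : S.Obj → Prop} (hT : IsRationalClass C R T)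
    (H : ∀ B, T B → Q1 R B) (m : ℕ) : VerticalVanishing R m :=
  fun Z hZ _ j hj i => (vertical_iso_iff h hZ j i).1 (high_of_rational h hT H Z j hj i)

theorem forClass (h : IsRegTheory C R) {T : S.Obj → Prop} (hT : IsRationalClass C R T)
    (G : S.Obj → Prop) (hG : ∀ Y, G Y → Y.IsFlat) : ForClass C R T G := by
  constructor
  · intro H
    exact ⟨fun B hB => H B (hT.flat B hB) (Or.inl hB),
      fun Y hY => H Y (hG Y hY) (Or.inr (mem_class h hY))⟩
  · rintro ⟨H1, H2⟩ X - (hX | ⟨n, Y, hY, hXY⟩)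
    · exact H1 X hX
    · exact (governedByZeroCycles h X _ Y hXY fun W _ => high_of_rational h hT H1 W).1
        fun t => H2 _ (hY t)

theorem forSupport (h : IsRegTheory C R) {T : S.Obj → Prop} (hT : IsRationalClass C R T) (r : ℕ) :
    ForSupport C R T r := by
  have h1 := forClass h hT (fun Y => Y.IsFlat ∧ Y.dim ≤ r + 1) fun Y hY => hY.1
  constructor
  · intro H
    have h2 := h1.1 fun X hf hX => ?_
    · exact ⟨h2.1, fun Y hY hd => h2.2 Y ⟨hY, hd⟩⟩
    rcases hX with hX | hX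
    · obtain ⟨n, Y, hY, hXY⟩ := hT.zero X hX
      exact H X hf ⟨n, Y, fun t => ⟨(hY t).1, le_trans (hY t).2 (by omega)⟩, hXY⟩
    · exact H X hf hX
  · rintro ⟨H1, H2⟩ X hf hX
    exact h1.2 ⟨H1, fun Y hY => H2 Y hY.1 hY.2⟩ X hf (Or.inr hX)

theorem rationalIffHigh (h : IsRegTheory C R) {T : S.Obj → Prop} (hT : IsRationalClass C R T)
    (h0 : ∀ X : S.Obj, X.IsFlat → X.dim ≤ 1 → Q1 R X) : RationalIffHigh R T := by
  constructor
  · exact high_of_rational h hT
  · intro H B hB
    obtain ⟨n, Y, hY, hBY⟩ := hT.zero B hB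
    exact (governedByZeroCycles h B _ Y hBY fun W _ => H W).1
      fun t => h0 _ (hY t).1 (hY t).2

end Pool.Agent.R387.AZ
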